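import Pool.Agent.Lib.TG1_h47.Res

/-!
# The places over the lines through a point

`l : Fin (m + 1) → K` are independent, `K` is algebraic over `k(l)`, `a` is a point of `k^(m+1)`.
-/

set_option autoImplicit false

namespace Pool.Agent.TG1h47

open IsLocalRing Pool.Agent.TG1h5

variable {k K : Type*} [Field k] [Field K] [Algebra k K] {m : ℕ}

/-- The field generated by the slopes of the lines through `a`. -/
noncomputable def kap (l : Fin (m + 1) → K) (a : Fin (m + 1) → k) : IntermediateField k K :=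
  IntermediateField.adjoin k (Set.range (rat (sh l a)))

/-- The places of `K / kap l a` which do not lie over the exceptional divisor of `a`. -/
def IsPlA (l : Fin (m + 1) → K) (a : Fin (m + 1) → k) (P : ValuationSubring K) : Prop :=
  (∀ x ∈ kap l a, x ∈ P) ∧ P ≠ ⊤ ∧ (sh l a 0)⁻¹ ∈ P

/-- The places at infinity. -/
def InfPl (l : Fin (m + 1) → K) (a : Fin (m + 1) → k) (P : ValuationSubring K) : Prop :=
  (∀ x ∈ kap l a, x ∈ P) ∧ sh l a 0 ∉ P

/-- `P` lies over the hypersurface `h = 0`. -/
def FinPl (l : Fin (m + 1) → K) (h : MvPolynomial (Fin (m + 1)) k) (P : ValuationSubring K) :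
    Prop :=
  (∀ g : MvPolynomial (Fin (m + 1)) k, MvPolynomial.aeval l g ∈ P) ∧
    ∀ g : MvPolynomial (Fin (m + 1)) k, MvPolynomial.aeval l g ∈ P.nonunits ↔ h ∣ g

theorem mem_of_isIntegral {F : IntermediateField k K} {P : ValuationSubring K}
    (hF : ∀ x ∈ F, x ∈ P) {y : K} (hy : IsIntegral F y) : y ∈ P := by
  obtain ⟨p, hp, hpy⟩ := hy
  let i : F →+* P := (algebraMap F K).codRestrict P.toSubring fun x => hF _ x.2
  have h1 : IsIntegral P y := ⟨p.map i, hp.map i, by
    rw [Polynomial.eval₂_map]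
    exact hpy⟩
  obtain ⟨z, hz⟩ := IsIntegrallyClosed.isIntegral_iff.1 h1
  rw [← hz]
  exact z.2

theorem const_mem {l : Fin (m + 1) → K} {a : Fin (m + 1) → k} {P : ValuationSubring K}
    (h : ∀ x ∈ kap l a, x ∈ P) (c : k) : algebraMap k K c ∈ P :=
  h _ (IntermediateField.algebraMap_mem _ c)

theorem rat_mem {l : Fin (m + 1) → K} {a : Fin (m + 1) → k} {P : ValuationSubring K}
    (h : ∀ x ∈ kap l a, x ∈ P) (i : Fin m) : rat (sh l a) i ∈ P :=
  h _ (IntermediateField.subset_adjoin k _ ⟨i, rfl⟩)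

theorem rat_indep {l : Fin (m + 1) → K} (hl : AlgebraicIndependent k l) (a : Fin (m + 1) → k) :
    AlgebraicIndependent k (rat (sh l a)) ∧ sh l a 0 ≠ 0 :=
  (ne_zero_and_indep' hl a).symm

theorem InfPl.trans {l : Fin (m + 1) → K} (hl : AlgebraicIndependent k l) {a : Fin (m + 1) → k}
    {P : ValuationSubring K} (h : InfPl l a P) (c : Fin (m + 1) → k) :
    InfPl l c P ∧ dgr (kap l c).toSubfield P = dgr (kap l a).toSubfield P := by
  obtain ⟨h1, h2⟩ := h
  have hk := const_mem h1
  letI := algRes P hk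
  have hr : ∀ i, rat (sh l a) i ∈ P := rat_mem h1
  obtain ⟨hi, hv0⟩ := rat_indep hl a
  obtain ⟨hi', hv0'⟩ := rat_indep hl c
  have h3 : (sh l a 0)⁻¹ ∈ P := (P.mem_or_inv_mem _).resolve_left h2
  -- the residue of `v⁻¹` is zero
  have h4 : residue P ⟨(sh l a 0)⁻¹, h3⟩ = 0 := by
    by_contra h4
    have := ((residue_ne_zero_iff ⟨(sh l a 0)⁻¹, h3⟩).1 h4).2
    change ((sh l a 0)⁻¹)⁻¹ ∈ P at this
    rw [inv_inv] at this
    exact h2 this
  have hb : ∀ i, sh l c i = sh l a i + algebraMap k K (a i - c i) := by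
    intro i
    rw [sh, sh, map_sub]
    ring
  set z : P := 1 + ⟨algebraMap k K (a 0 - c 0), hk _⟩ * ⟨(sh l a 0)⁻¹, h3⟩ with hz
  have hz1 : residue P z = 1 := by
    rw [hz, map_add, map_one, map_mul, h4, mul_zero, add_zero]
  have hz0 : (z : K) ≠ 0 ∧ (z : K)⁻¹ ∈ P := (residue_ne_zero_iff z).1 (by
    rw [hz1]; exact one_ne_zero)
  have hzK : (z : K) = sh l c 0 / sh l a 0 := by
    change 1 + algebraMap k K (a 0 - c 0) * (sh l a 0)⁻¹ = _
    rw [hb 0]
    field_simp
  have hτ : ∀ i, rat (sh l c) i =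
      (rat (sh l a) i + algebraMap k K (a i.succ - c i.succ) * (sh l a 0)⁻¹) * (z : K)⁻¹ := by
    intro i
    rw [hzK, rat, rat, hb i.succ]
    field_simp
  have hτm : ∀ i, rat (sh l c) i ∈ P := by
    intro i
    rw [hτ]
    exact mul_mem (add_mem (hr i) (mul_mem (hk _) h3)) hz0.2
  have hres : fres P (rat (sh l c)) hτm = fres P (rat (sh l a)) hr := by
    funext i
    have h5 : (⟨rat (sh l c) i, hτm i⟩ : P) =
        (⟨rat (sh l a) i, hr i⟩ + ⟨algebraMap k K (a i.succ - c i.succ), hk _⟩ *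
          ⟨(sh l a 0)⁻¹, h3⟩) * ⟨(z : K)⁻¹, hz0.2⟩ := Subtype.ext (hτ i)
    rw [fres, h5, map_mul, map_add, map_mul, h4, mul_zero, add_zero, residue_inv z hz0.2 hz0.1,
      hz1, inv_one, mul_one, fres]
  have hia : AlgebraicIndependent k (fres P (rat (sh l a)) hr) := fres_indep hk hr hi h1
  have hle : ∀ x ∈ kap l c, x ∈ P := adjoin_le hk hτm (by rw [hres]; exact hia)
  refine ⟨⟨hle, fun h5 => h2 ?_⟩, ?_⟩
  · have h6 : sh l a 0 = sh l c 0 - algebraMap k K (a 0 - c 0) := by rw [hb 0]; ring
    rw [h6]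
    exact sub_mem h5 (hk _)
  · rw [kap, kap, dgr_adjoin hk hτm hle, dgr_adjoin hk hr h1, hres]

section Fin

variable {l : Fin (m + 1) → K}

theorem FinPl.const {h : MvPolynomial (Fin (m + 1)) k} {P : ValuationSubring K}
    (hP : FinPl l h P) (c : k) : algebraMap k K c ∈ P := by
  have := hP.1 (MvPolynomial.C c)
  rwa [MvPolynomial.algHom_C] at this

theorem FinPl.mem {h : MvPolynomial (Fin (m + 1)) k} {P : ValuationSubring K}
    (hP : FinPl l h P) (i : Fin (m + 1)) : l i ∈ P := by
  have := hP.1 (MvPolynomial.X i)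
  rwa [MvPolynomial.aeval_X] at this

theorem finPl_iff {h : MvPolynomial (Fin (m + 1)) k} {P : ValuationSubring K}
    (hk : ∀ c : k, algebraMap k K c ∈ P) (hs : ∀ i, l i ∈ P) :
    letI := algRes P hk
    FinPl l h P ↔ RingHom.ker (MvPolynomial.aeval (fres P l hs) :
      MvPolynomial (Fin (m + 1)) k →ₐ[k] ResidueField P) = Ideal.span {h} := by
  letI := algRes P hk
  have key : ∀ g : MvPolynomial (Fin (m + 1)) k, MvPolynomial.aeval l g ∈ P.nonunits ↔
      MvPolynomial.aeval (fres P l hs) g = 0 := by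
    intro g
    rw [← residue_aeval hk hs, residue_eq_zero_iff, ← ValuationSubring.coe_mem_nonunits_iff]
  constructor
  · rintro ⟨-, h2⟩
    ext g
    rw [RingHom.mem_ker, Ideal.mem_span_singleton, ← h2, key]
  · intro h1
    refine ⟨fun g => aeval_mem hk hs g, fun g => ?_⟩
    rw [key, ← Ideal.mem_span_singleton, ← h1, RingHom.mem_ker]

theorem FinPl.ne_top {h : MvPolynomial (Fin (m + 1)) k} {P : ValuationSubring K}
    (hl : AlgebraicIndependent k l) (h0 : h ≠ 0) (hP : FinPl l h P) : P ≠ ⊤ := by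
  rintro rfl
  have h1 := (hP.2 h).2 dvd_rfl
  rw [ValuationSubring.mem_nonunits_iff_or] at h1
  rcases h1 with h1 | h1
  · exact h0 (hl (by rw [h1, map_zero]))
  · exact h1 (ValuationSubring.mem_top _)

/-- The residues of `k(l)` at a place over a hypersurface. -/
theorem FinPl.rF_eq {h : MvPolynomial (Fin (m + 1)) k} {P : ValuationSubring K}
    (hl : AlgebraicIndependent k l) (hirr : Irreducible h) (hP : FinPl l h P) :
    letI := algRes P hP.const
    rF P (IntermediateField.adjoin k (Set.range l)).toSubfield =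
      (IntermediateField.adjoin k (Set.range (fres P l hP.mem))).toSubfield := by
  letI := algRes P hP.const
  have hh0 : MvPolynomial.aeval l h ≠ (0 : K) := fun h1 =>
    hirr.ne_zero (hl (by rw [h1, map_zero]))
  have hhn : MvPolynomial.aeval l h ∈ P.nonunits := (hP.2 h).2 dvd_rfl
  apply le_antisymm
  · rintro _ ⟨x, hx, rfl⟩
    obtain ⟨r, q, hrq⟩ := (IntermediateField.mem_adjoin_range_iff k l (x : K)).1 hx
    by_cases hq : MvPolynomial.aeval l q = (0 : K)
    · have : x = 0 := Subtype.ext (by rw [hrq, hq, div_zero]; rfl)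
      rw [this, map_zero]
      exact zero_mem _
    have hq0 : q ≠ 0 := by
      rintro rfl
      exact hq (map_zero _)
    obtain ⟨q', hq', hqd⟩ := (FiniteMultiplicity.of_not_isUnit hirr.not_isUnit
      hq0).exists_eq_pow_mul_and_not_dvd
    have hind : ∀ (e : ℕ) (r : MvPolynomial (Fin (m + 1)) k),
        (x : K) * MvPolynomial.aeval l (h ^ e * q') = MvPolynomial.aeval l r →
        ∃ r' : MvPolynomial (Fin (m + 1)) k,
          (x : K) * MvPolynomial.aeval l q' = MvPolynomial.aeval l r' := by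
      intro e
      induction e with
      | zero => exact fun r hr => ⟨r, by rwa [pow_zero, one_mul] at hr⟩
      | succ e ih =>
        intro r hr
        have h2 : h ^ (e + 1) * q' = h * (h ^ e * q') := by ring
        have h1 : MvPolynomial.aeval l r ∈ P.nonunits := by
          rw [← hr, h2, map_mul, mul_left_comm]
          have h3 : MvPolynomial.aeval l h ∈ P := hP.1 h
          have h4 : (⟨MvPolynomial.aeval l h, h3⟩ : P) ∈ maximalIdeal P :=
            ValuationSubring.coe_mem_nonunits_iff.1 hhn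
          have h5 := Ideal.mul_mem_right
            (x * ⟨MvPolynomial.aeval l (h ^ e * q'), hP.1 _⟩ : P) _ h4
          exact ValuationSubring.coe_mem_nonunits_iff.2 h5
        rw [hP.2] at h1
        obtain ⟨r', rfl⟩ := h1
        refine ih r' (mul_left_cancel₀ hh0 ?_)
        rw [← map_mul, ← hr, h2, map_mul (MvPolynomial.aeval l) h (h ^ e * q')]
        ring
    obtain ⟨r', hr'⟩ := hind _ r (by rw [← hq', hrq, div_mul_cancel₀ _ hq])
    have h1 : residue P x * MvPolynomial.aeval (fres P l hP.mem) q' =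
        MvPolynomial.aeval (fres P l hP.mem) r' := by
      rw [← residue_aeval hP.const hP.mem, ← residue_aeval hP.const hP.mem, ← map_mul]
      congr 1
      exact Subtype.ext hr'
    have h2 : MvPolynomial.aeval (fres P l hP.mem) q' ≠ 0 := by
      intro h3
      rw [← residue_aeval hP.const hP.mem, residue_eq_zero_iff,
        ← ValuationSubring.coe_mem_nonunits_iff] at h3
      exact hqd ((hP.2 q').1 h3)
    refine (IntermediateField.mem_adjoin_range_iff k _ _).2 ⟨r', q', ?_⟩
    rw [← h1, mul_div_cancel_right₀ _ h2]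
  · have h1 : IntermediateField.adjoin k (Set.range (fres P l hP.mem)) ≤
        ({ rF P (IntermediateField.adjoin k (Set.range l)).toSubfield with
          algebraMap_mem' := fun c => ⟨⟨algebraMap k K c, hP.const c⟩,
            (IntermediateField.algebraMap_mem _ c), rfl⟩ } :
          IntermediateField k (ResidueField P)) := by
      rw [IntermediateField.adjoin_le_iff]
      rintro _ ⟨i, rfl⟩
      exact ⟨⟨l i, hP.mem i⟩, IntermediateField.subset_adjoin k _ ⟨i, rfl⟩, rfl⟩
    exact fun y hy => h1 hy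

/-- The residue degree over the hypersurface. -/
theorem FinPl.dgr_eq {h : MvPolynomial (Fin (m + 1)) k} {P : ValuationSubring K}
    (hl : AlgebraicIndependent k l) (hirr : Irreducible h) (hP : FinPl l h P) :
    letI := algRes P hP.const
    dgr (IntermediateField.adjoin k (Set.range l)).toSubfield P =
      Module.finrank (IntermediateField.adjoin k (Set.range (fres P l hP.mem)))
        (ResidueField P) := by
  letI := algRes P hP.const
  rw [dgr, hP.rF_eq hl hirr]
  rfl

/-- **A divisor which is not a cone with vertex `a` is a place over the lines through `a`.** -/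
theorem FinPl.isPlA {h : MvPolynomial (Fin (m + 1)) k} {P : ValuationSubring K}
    (hl : AlgebraicIndependent k l) (hirr : Irreducible h) (hP : FinPl l h P)
    {a : Fin (m + 1) → k} (ha : ordAt a h ≠ h.totalDegree) : IsPlA l a P := by
  letI := algRes P hP.const
  have hker := (finPl_iff hP.const hP.mem).1 hP
  obtain ⟨h1, h2⟩ := ne_zero_and_indep (fres P l hP.mem) a ha hker
  have hsm : ∀ i, sh l a i ∈ P := fun i => sub_mem (hP.mem i) (hP.const _)
  have hsr : ∀ i, residue P ⟨sh l a i, hsm i⟩ = sh (fres P l hP.mem) a i := by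
    intro i
    change _ = residue P ⟨l i, hP.mem i⟩ - kres P hP.const (a i)
    rw [kres_apply, ← map_sub]
    rfl
  obtain ⟨-, h4⟩ := (residue_ne_zero_iff ⟨sh l a 0, hsm 0⟩).1 (by rw [hsr]; exact h1)
  have hsh0 : sh l a 0 ≠ 0 := (rat_indep hl a).2
  have hrm : ∀ i, rat (sh l a) i ∈ P := fun i => by
    rw [rat, div_eq_mul_inv]
    exact mul_mem (hsm _) h4
  have hrr : fres P (rat (sh l a)) hrm = rat (sh (fres P l hP.mem) a) := by
    funext i
    have h5 : (⟨rat (sh l a) i, hrm i⟩ : P) = ⟨sh l a i.succ, hsm _⟩ * ⟨(sh l a 0)⁻¹, h4⟩ :=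
      Subtype.ext (div_eq_mul_inv _ _)
    rw [fres, h5, map_mul, residue_inv ⟨sh l a 0, hsm 0⟩ h4 hsh0, hsr, hsr, rat, div_eq_mul_inv]
  refine ⟨adjoin_le hP.const hrm (by rw [hrr]; exact h2), hP.ne_top hl hirr.ne_zero, h4⟩

/-- The degree of a place over the lines through `a`. -/
theorem FinPl.dgr_kap {h : MvPolynomial (Fin (m + 1)) k} {P : ValuationSubring K}
    (hl : AlgebraicIndependent k l) (hirr : Irreducible h) (hP : FinPl l h P)
    {a : Fin (m + 1) → k} (ha : IsPlA l a P) :
    dgr (kap l a).toSubfield P = (h.totalDegree - ordAt a h) *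
      dgr (IntermediateField.adjoin k (Set.range l)).toSubfield P := by
  letI := algRes P hP.const
  have hker := (finPl_iff hP.const hP.mem).1 hP
  have hsm : ∀ i, sh l a i ∈ P := fun i => sub_mem (hP.mem i) (hP.const _)
  have hsr : ∀ i, residue P ⟨sh l a i, hsm i⟩ = sh (fres P l hP.mem) a i := by
    intro i
    change _ = residue P ⟨l i, hP.mem i⟩ - kres P hP.const (a i)
    rw [kres_apply, ← map_sub]
    rfl
  have hsh0 : sh l a 0 ≠ 0 := (rat_indep hl a).2
  have hrm := rat_mem ha.1
  have hrr : fres P (rat (sh l a)) hrm = rat (sh (fres P l hP.mem) a) := by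
    funext i
    have h5 : (⟨rat (sh l a) i, hrm i⟩ : P) =
        ⟨sh l a i.succ, hsm _⟩ * ⟨(sh l a 0)⁻¹, ha.2.2⟩ :=
      Subtype.ext (div_eq_mul_inv _ _)
    rw [fres, h5, map_mul, residue_inv ⟨sh l a 0, hsm 0⟩ ha.2.2 hsh0, hsr, hsr, rat,
      div_eq_mul_inv]
  have h1 : sh (fres P l hP.mem) a 0 ≠ 0 := by
    rw [← hsr]
    exact (residue_ne_zero_iff ⟨sh l a 0, hsm 0⟩).2 ⟨hsh0, ha.2.2⟩
  have h2 : AlgebraicIndependent k (rat (sh (fres P l hP.mem) a)) := by
    rw [← hrr]
    exact fres_indep hP.const hrm (rat_indep hl a).1 ha.1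
  rw [hP.dgr_eq hl hirr, kap, dgr_adjoin hP.const hrm ha.1, hrr]
  exact finrank_at (fres P l hP.mem) a hirr.ne_zero hker h1 h2

/-- The places over the lines through `a` are at infinity or over a hypersurface. -/
theorem IsPlA.cases {a : Fin (m + 1) → k} {P : ValuationSubring K}
    (hl : AlgebraicIndependent k l)
    (halg : Algebra.IsAlgebraic (IntermediateField.adjoin k (Set.range l)) K)
    (hP : IsPlA l a P) : InfPl l a P ∨
      ∃ h : MvPolynomial (Fin (m + 1)) k, Irreducible h ∧ FinPl l h P := by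
  by_cases hv : sh l a 0 ∈ P
  swap
  · exact Or.inl ⟨hP.1, hv⟩
  right
  have hk := const_mem hP.1
  letI := algRes P hk
  have hsh0 : sh l a 0 ≠ 0 := (rat_indep hl a).2
  have hrm := rat_mem hP.1
  have hsm : ∀ i, sh l a i ∈ P := by
    intro i
    refine Fin.cases hv (fun j => ?_) i
    have h1 : sh l a j.succ = rat (sh l a) j * sh l a 0 := by
      rw [rat, div_mul_cancel₀ _ hsh0]
    rw [h1]
    exact mul_mem (hrm j) hv
  have hlm : ∀ i, l i ∈ P := fun i => by
    have h1 : l i = sh l a i + algebraMap k K (a i) := by rw [sh, sub_add_cancel]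
    rw [h1]
    exact add_mem (hsm i) (hk _)
  have hsr : ∀ i, residue P ⟨sh l a i, hsm i⟩ = sh (fres P l hlm) a i := by
    intro i
    change _ = residue P ⟨l i, hlm i⟩ - kres P hk (a i)
    rw [kres_apply, ← map_sub]
    rfl
  have hrr : fres P (rat (sh l a)) hrm = rat (sh (fres P l hlm) a) := by
    funext i
    have h5 : (⟨rat (sh l a) i, hrm i⟩ : P) =
        ⟨sh l a i.succ, hsm _⟩ * ⟨(sh l a 0)⁻¹, hP.2.2⟩ :=
      Subtype.ext (div_eq_mul_inv _ _)
    rw [fres, h5, map_mul, residue_inv ⟨sh l a 0, hsm 0⟩ hP.2.2 hsh0, hsr, hsr, rat,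
      div_eq_mul_inv]
  have h1 : sh (fres P l hlm) a 0 ≠ 0 := by
    rw [← hsr]
    exact (residue_ne_zero_iff ⟨sh l a 0, hsm 0⟩).2 ⟨hsh0, hP.2.2⟩
  have h2 : AlgebraicIndependent k (rat (sh (fres P l hlm) a)) := by
    rw [← hrr]
    exact fres_indep hk hrm (rat_indep hl a).1 hP.1
  have h3 : ¬ AlgebraicIndependent k (sh (fres P l hlm) a) := by
    intro h3
    have h4 : AlgebraicIndependent k (fres P l hlm) := by
      rw [algebraicIndependent_iff] at h3 ⊢
      intro g hg
      rw [← aeval_sh _ a] at hg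
      have := h3 _ hg
      exact tr_injective a (by rw [this, map_zero])
    have h5 : ∀ x ∈ IntermediateField.adjoin k (Set.range l), x ∈ P := adjoin_le hk hlm h4
    apply hP.2.1
    rw [eq_top_iff]
    intro y _
    exact mem_of_isIntegral h5 (halg.isAlgebraic y).isIntegral
  obtain ⟨h', hirr', hker'⟩ := exists_ker (sh (fres P l hlm) a) h1 h2 h3
  have hker := ker_of_sh hker'
  have hne : tr (-a) h' ≠ 0 := tr_ne_zero _ hirr'.ne_zero
  refine ⟨tr (-a) h', ?_, (finPl_iff hk hlm).2 hker⟩
  have hprime : (Ideal.span {tr (-a) h'}).IsPrime := by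
    rw [← hker]
    exact RingHom.ker_isPrime _
  exact ((Ideal.span_singleton_prime hne).1 hprime).irreducible

end Fin

end Pool.Agent.TG1h47
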