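import Pool.Agent.Lib.TG1_h47.Tr

/-!
# A polynomial which is a form with respect to `n + 2` centres in general position is constant
-/

set_option autoImplicit false

open MvPolynomial

namespace Pool.Agent.TG1h47

open Pool.Agent.TG1h5
open Pool.Agent.TAO (wo_le)

variable {k : Type*} [Field k] {m : ℕ}

theorem eval_smul_form {g : MvPolynomial (Fin (m + 1)) k} (hform : ord0 g = g.totalDegree)
    (lam : k) (v : Fin (m + 1) → k) :
    eval (lam • v) g = lam ^ g.totalDegree * eval v g := by
  classical
  rw [eval_eq, eval_eq, Finset.mul_sum]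
  refine Finset.sum_congr rfl fun d hd => ?_
  have h1 : d.degree = g.totalDegree := by
    apply le_antisymm
    · exact degree_le_totalDegree hd
    · rw [← hform, ← weight_one']
      exact wo_le _ hd
  have h2 : ∏ i ∈ d.support, (lam • v) i ^ d i =
      lam ^ g.totalDegree * ∏ i ∈ d.support, v i ^ d i := by
    rw [← h1, Finsupp.degree_apply, ← Finset.prod_pow_eq_pow_sum, ← Finset.prod_mul_distrib]
    refine Finset.prod_congr rfl fun i _ => ?_
    rw [Pi.smul_apply, smul_eq_mul, mul_pow]
  rw [h2]
  ring

theorem eval_smul_at {c : Fin (m + 1) → k} {h : MvPolynomial (Fin (m + 1)) k}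
    (hform : ordAt c h = h.totalDegree) (lam : k) (v : Fin (m + 1) → k) :
    eval (lam • v + c) h = lam ^ h.totalDegree * eval (v + c) h := by
  have h1 := eval_smul_form (g := tr c h) (by rw [totalDegree_tr]; exact hform) lam v
  rwa [eval_tr, eval_tr, totalDegree_tr] at h1

/-- A form with center `0` and `e` is invariant under translations by multiples of `e`. -/
theorem eval_add_eq [Infinite k] {e : Fin (m + 1) → k} {h : MvPolynomial (Fin (m + 1)) k}
    (h0 : ordAt 0 h = h.totalDegree) (he : ordAt e h = h.totalDegree) (mu : k)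
    (v : Fin (m + 1) → k) : eval (v + mu • e) h = eval v h := by
  have k0 : ∀ (lam : k) (w : Fin (m + 1) → k),
      eval (lam • w) h = lam ^ h.totalDegree * eval w h := by
    intro lam w
    have := eval_smul_at h0 lam w
    rwa [add_zero, add_zero] at this
  -- `f(w + ν e) = f(w + e)` for `ν ≠ 0`
  have k1 : ∀ (nu : k) (w : Fin (m + 1) → k), nu ≠ 0 → eval (w + nu • e) h = eval (w + e) h := by
    intro nu w hnu
    have h1 := eval_smul_at he nu⁻¹ w
    have h2 : nu⁻¹ • w + e = nu⁻¹ • (w + nu • e) := by
      rw [smul_add, smul_smul, inv_mul_cancel₀ hnu, one_smul]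
    rw [h2, k0] at h1
    exact mul_left_cancel₀ (pow_ne_zero _ (inv_ne_zero hnu)) h1
  -- `f(v) = f(v + ν e)` for `ν ≠ 1`
  have k2 : ∀ (nu : k) (w : Fin (m + 1) → k), nu ≠ 1 → eval (w + nu • e) h = eval w h := by
    intro nu w hnu
    have h1 := k1 (1 - nu) (w + (nu - 1) • e) (sub_ne_zero.2 hnu.symm)
    have h2 : w + (nu - 1) • e + (1 - nu) • e = w := by
      rw [add_assoc, ← add_smul, sub_add_sub_cancel, sub_self, zero_smul, add_zero]
    have h3 : w + (nu - 1) • e + e = w + nu • e := by
      rw [add_assoc, sub_smul, one_smul, sub_add_cancel]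
    rw [h2, h3] at h1
    exact h1.symm
  obtain ⟨nu, hnu⟩ := Set.Infinite.nonempty (Set.infinite_univ.diff
    (Set.toFinite ({1, 1 + mu} : Set k)))
  have hn1 : nu ≠ 1 := fun h => hnu.2 (by rw [h]; exact Set.mem_insert _ _)
  have hn2 : nu - mu ≠ 1 := fun h => hnu.2 (by
    have : nu = 1 + mu := by rw [← h]; ring
    rw [this]
    exact Set.mem_insert_of_mem _ rfl)
  have h1 := k2 nu v hn1
  have h2 := k2 (nu - mu) (v + mu • e) hn2
  have h3 : v + mu • e + (nu - mu) • e = v + nu • e := by
    rw [add_assoc, ← add_smul]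
    congr 2
    ring
  rw [h3, h1] at h2
  exact h2.symm

/-- The centres. -/
def centers (k : Type*) [Field k] (m : ℕ) : Set (Fin (m + 1) → k) :=
  insert 0 (Set.range fun i : Fin (m + 1) => (Pi.single i 1 : Fin (m + 1) → k))

theorem centers_finite : (centers k m).Finite := (Set.finite_range _).insert 0

theorem totalDegree_eq_zero_of_cones [Infinite k] {h : MvPolynomial (Fin (m + 1)) k}
    (hc : ∀ c ∈ centers k m, ordAt c h = h.totalDegree) : h.totalDegree = 0 := by
  classical
  have h0 : ordAt 0 h = h.totalDegree := hc 0 (Set.mem_insert _ _)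
  have key : ∀ (v : Fin (m + 1) → k) (s : Finset (Fin (m + 1))),
      eval (∑ i ∈ s, v i • (Pi.single i 1 : Fin (m + 1) → k)) h = eval 0 h := by
    intro v s
    induction s using Finset.induction_on with
    | empty => rw [Finset.sum_empty]
    | insert i s hi ih =>
      have h2 := eval_add_eq h0 (hc _ (Set.mem_insert_of_mem _ ⟨i, rfl⟩)) (v i)
        (∑ j ∈ s, v j • (Pi.single j 1 : Fin (m + 1) → k))
      rw [Finset.sum_insert hi, add_comm (v i • (Pi.single i 1 : Fin (m + 1) → k)), h2, ih]
  have h1 : h = C (eval 0 h) := by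
    apply MvPolynomial.funext
    intro v
    rw [eval_C, ← key v Finset.univ]
    congr 2
    funext j
    rw [Finset.sum_apply, Finset.sum_eq_single j]
    · rw [Pi.smul_apply, Pi.single_eq_same, smul_eq_mul, mul_one]
    · intro i _ hij
      rw [Pi.smul_apply, Pi.single_eq_of_ne hij.symm, smul_zero]
    · intro hj; exact absurd (Finset.mem_univ j) hj
  rw [h1, totalDegree_C]

theorem totalDegree_ne_zero_of_irreducible {h : MvPolynomial (Fin (m + 1)) k}
    (hirr : Irreducible h) : h.totalDegree ≠ 0 := by
  intro h0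
  rw [MvPolynomial.totalDegree_eq_zero_iff_eq_C] at h0
  by_cases hc : coeff 0 h = 0
  · rw [hc, C_0] at h0
    exact hirr.ne_zero h0
  · apply hirr.not_isUnit
    rw [h0]
    exact (isUnit_iff_ne_zero.2 hc).map C

/-- An irreducible polynomial is not a cone with respect to one of the centres. -/
theorem exists_center [Infinite k] {h : MvPolynomial (Fin (m + 1)) k} (hirr : Irreducible h) :
    ∃ c ∈ centers k m, ordAt c h ≠ h.totalDegree := by
  by_contra hc
  push Not at hc
  exact totalDegree_ne_zero_of_irreducible hirr (totalDegree_eq_zero_of_cones hc)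

end Pool.Agent.TG1h47
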