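import Pool.Agent.Lib.TG1.Defs
import Pool.Agent.Lib.TG1_h47.Pl

/-!
# Conversions between the language of `TG1/Defs` and `TG1_h47`
-/

set_option autoImplicit false

namespace Pool.Agent.TG1h47

open Pool.Agent.TG1 (OverP)
open Pool.Agent.TAO (wo_le exists_wo)
open Pool.Agent.TG1h5 (ord0 weight_one')

universe u

section

variable {k K : Type u} [Field k] [Field K] [Algebra k K] {m : ℕ}

theorem overP_iff {l : Fin (m + 1) → K} {P : ValuationSubring K}
    {h : MvPolynomial (Fin (m + 1)) k} (hk : ∀ c : k, algebraMap k K c ∈ P) :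
    OverP l P h ↔ Irreducible h ∧ FinPl l h P := by
  constructor
  · rintro ⟨h1, h2, h3⟩
    refine ⟨h2, fun g => aeval_mem hk h1 g, fun g => ?_⟩
    rw [ValuationSubring.mem_nonunits_iff, h3]
  · rintro ⟨h2, h1⟩
    refine ⟨h1.mem, h2, fun g => ?_⟩
    rw [← h1.2, ValuationSubring.mem_nonunits_iff]

theorem ordAt_eq (c : Fin (m + 1) → k) (F : MvPolynomial (Fin (m + 1)) k) :
    TG1.ordAt c F = ordAt c F := by
  have h1 : TG1.ordAt c F = sInf {e | MvPolynomial.homogeneousComponent e (tr c F) ≠ 0} := rfl
  rw [h1, ordAt]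
  by_cases h0 : tr c F = 0
  · rw [h0]
    have h2 : {e | MvPolynomial.homogeneousComponent e (0 : MvPolynomial (Fin (m + 1)) k) ≠ 0} =
        ∅ := by
      rw [Set.eq_empty_iff_forall_notMem]
      intro e he
      exact he (map_zero _)
    rw [h2, Nat.sInf_empty, ord0, TAO.wo, MvPolynomial.coe_zero,
      MvPowerSeries.weightedOrder_zero]
    rfl
  · apply le_antisymm
    · obtain ⟨d, hd, hd'⟩ := exists_wo (fun _ => 1) h0
      apply Nat.sInf_le
      change MvPolynomial.homogeneousComponent _ (tr c F) ≠ 0
      intro h2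
      have h3 := congrArg (MvPolynomial.coeff d) h2
      rw [MvPolynomial.coeff_homogeneousComponent, MvPolynomial.coeff_zero] at h3
      rw [weight_one'] at hd'
      rw [ord0, if_pos hd'] at h3
      exact MvPolynomial.mem_support_iff.1 hd h3
    · have hne : {e | MvPolynomial.homogeneousComponent e (tr c F) ≠ 0}.Nonempty := by
        by_contra hc
        rw [Set.not_nonempty_iff_eq_empty, Set.eq_empty_iff_forall_notMem] at hc
        apply h0
        rw [← MvPolynomial.sum_homogeneousComponent (tr c F)]
        refine Finset.sum_eq_zero fun e _ => ?_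
        by_contra he
        exact hc e he
      have h2 : MvPolynomial.homogeneousComponent
          (sInf {e | MvPolynomial.homogeneousComponent e (tr c F) ≠ 0}) (tr c F) ≠ 0 :=
        Nat.sInf_mem hne
      obtain ⟨d, hd⟩ := MvPolynomial.support_nonempty.2 h2
      rw [MvPolynomial.mem_support_iff, MvPolynomial.coeff_homogeneousComponent] at hd
      by_cases hde : d.degree = sInf {e | MvPolynomial.homogeneousComponent e (tr c F) ≠ 0}
      · rw [if_pos hde] at hd
        rw [← hde, ← weight_one']
        exact wo_le _ (MvPolynomial.mem_support_iff.2 hd)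
      · rw [if_neg hde] at hd
        exact absurd rfl hd

end

section Pl

variable {k K : Type u} [Field k] [Field K] [Algebra k K]

/-- A place over an intermediate field as a place over `k`. -/
def res (F : IntermediateField k K) (Q : PF.Pl F K) : PF.Pl k K where
  v := Q.v
  zero := Q.zero
  mul := Q.mul
  add := Q.add
  triv c hc := Q.triv (algebraMap k F c) ((map_ne_zero _).2 hc)
  unif := Q.unif

@[simp] theorem res_v (F : IntermediateField k K) (Q : PF.Pl F K) : (res F Q).v = Q.v := rfl

theorem res_injective (F : IntermediateField k K) : Function.Injective (res F) := by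
  intro Q Q' h
  apply PF.Pl.ext'
  intro x
  exact congrFun (congrArg PF.Pl.v h) x

theorem res_vs (F : IntermediateField k K) (Q : PF.Pl F K) : (res F Q).vs = Q.vs := by
  ext x
  rfl

theorem mem_range_res {F : IntermediateField k K} {R : PF.Pl k K} :
    R ∈ Set.range (res F) ↔ ∀ x ∈ F, x ≠ 0 → R.v x = 0 := by
  constructor
  · rintro ⟨Q, rfl⟩ x hx hx0
    exact Q.triv ⟨x, hx⟩ fun h => hx0 (congrArg Subtype.val h)
  · intro h
    exact ⟨{ v := R.v, zero := R.zero, mul := R.mul, add := R.add, unif := R.unif,
             triv := fun c hc => h c c.2 fun h => hc (Subtype.ext h) }, PF.Pl.ext' fun _ => rfl⟩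

theorem mem_range_res' {F : IntermediateField k K} {R : PF.Pl k K} :
    R ∈ Set.range (res F) ↔ ∀ x ∈ F, x ∈ R.vs := by
  rw [mem_range_res]
  constructor
  · intro h x hx
    rw [PF.Pl.mem_vs']
    by_cases hx0 : x = 0
    · rw [hx0, R.zero]
    · rw [h x hx hx0]
  · intro h x hx hx0
    have h1 := h x hx
    have h2 := h _ (inv_mem hx)
    rw [PF.Pl.mem_vs'] at h1 h2
    rw [R.map_inv] at h2
    omega

/-- Normalised discrete valuations with the same valuation ring are equal. -/
theorem v_eq_of_vs_eq {R R' : PF.Pl k K} (h : R.vs = R'.vs) : R = R' := PF.Pl.vs_injective h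

end Pl

end Pool.Agent.TG1h47
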