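import Pool.Agent.Lib.TG1.Deg
import Pool.Agent.Lib.TG1.FFI
import Pool.Agent.Lib.TG1.TL
import Pool.Agent.Lib.TG1_h47.Conv

/-!
# Row DF, first part: `β` as a sum over the places of `K / k`
-/

set_option autoImplicit false

namespace Pool.Agent.TG1

open MvPolynomial
open Pool.Agent.TG (Ov ZDim IsMin)
open Pool.Agent.TGh33 (Wr DB)
open Pool.Agent.TGh71 (dsum pol wgt)
open Pool.Agent.TG1h47 (dgr FinPl IsPlA InfPl)

universe u

variable {k K : Type u} [Field k] [Field K] [Algebra k K]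

section

variable {n : ℕ} {D : Fin (n + 1) → Derivation k K K} {z : Fin (n + 1) → K} {A : Subalgebra k K}

theorem algInd_crd (dat : Dat D z A) {x : K} {t : Fin (n + 1) → K}
    (hW : Wr D (Fin.cons x t) ≠ 0) : AlgebraicIndependent k (crd x t) := by
  have h1 : FiniteDimensional (IntermediateField.adjoin k (Set.range (crd x t))) K :=
    kq_fin dat hW
  have halg : Algebra.IsAlgebraic (IntermediateField.adjoin k (Set.range (crd x t))) K :=
    Algebra.IsAlgebraic.of_finite _ _
  have halg3 : Algebra.IsAlgebraic (Algebra.adjoin k (Set.range (crd x t))) K := by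
    open scoped IntermediateField.algebraAdjoinAdjoin in
    exact (IsFractionRing.comap_isAlgebraic_iff
      (A := Algebra.adjoin k (Set.range (crd x t)))
      (K := IntermediateField.adjoin k (Set.range (crd x t)))
      (C := K)).2 halg
  refine (Algebra.IsAlgebraic.isTranscendenceBasis_of_lift_le_trdeg_of_finite k
    (crd x t) ?_).1
  rw [dat.trd]
  simp

theorem tr_eq {x : K} (hx : x ≠ 0) (t : Fin (n + 1) → K) (c : Fin (n + 1) → k)
    (j : Fin (n + 1)) : tr x t c j = x * TG1h47.sh (crd x t) c j := by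
  rw [tr, TG1h47.sh, crd, mul_sub, mul_div_cancel₀ _ hx, Algebra.smul_def, mul_comm x]

theorem kap_tr {x : K} (hx : x ≠ 0) (t : Fin (n + 1) → K) (c : Fin (n + 1) → k) :
    kap k (tr x t c) = TG1h47.kap (crd x t) c := by
  rw [← kap_eq]
  have h1 : (fun j => tr x t c j / tr x t c 0) = fun j =>
      (crd x t j - algebraMap k K (c j)) / (crd x t 0 - algebraMap k K (c 0)) := by
    funext j
    rw [tr_eq hx, tr_eq hx, mul_div_mul_left _ _ hx]
    rfl
  rw [kap, kap, h1]

theorem tr_zero' (x : K) (t : Fin (n + 1) → K) : tr x t (0 : Fin (n + 1) → k) = t := by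
  funext j
  rw [tr, Pi.zero_apply, zero_smul, sub_zero]

open Classical in
/-- The weight as a function on the places of `K / k`. -/
noncomputable def wtR (D : Fin (n + 1) → Derivation k K K) (A : Subalgebra k K) (x : K)
    (t : Fin (n + 1) → K) (R : PF.Pl k K) : ℤ :=
  if Good D A R.vs ∧ R.v (t 0) = 0 then R.v (Wr D (Fin.cons x t))
  else if R.v (t 0) ≤ R.v x then 1 else 0

open Classical in
/-- The intrinsic weight. -/
noncomputable def wI (D : Fin (n + 1) → Derivation k K K) (A : Subalgebra k K) (x W : K)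
    (R : PF.Pl k K) : ℤ :=
  if Good D A R.vs ∧ R.v x = 0 then R.v W else 1

theorem wgt_eq (x : K) (t : Fin (n + 1) → K) (Q : PL k t) :
    wgt (gd D A t) (fun P => P.v (t 0)) (fun P => P.v x) (fun P => P.v (Wr D (Fin.cons x t))) Q =
      wtR D A x t (TG1h47.res (kap k t) Q) := by
  classical
  rw [wtR, TG1h47.res_vs, TG1h47.res_v]
  unfold wgt
  have h1 : Q ∈ gd D A t ↔ (Good D A Q.vs ∧ Q.v (t 0) = 0) := Iff.rfl
  by_cases h : Q ∈ gd D A t
  · rw [if_pos h, if_pos (h1.1 h)]
  · rw [if_neg h, if_neg (fun h2 => h (h1.2 h2))]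

theorem bet_eq (x : K) (t : Fin (n + 1) → K) :
    bet D A x t = ∑ᶠ R ∈ Set.range (TG1h47.res (kap k t)),
      wtR D A x t R * (dgr (kap k t).toSubfield R.vs : ℤ) := by
  rw [finsum_mem_range (TG1h47.res_injective (kap k t))]
  unfold bet dsum
  refine finsum_congr fun Q => ?_
  rw [wgt_eq]
  dsimp only
  rw [deg_eq, TG1h47.res_vs]

/-- The set of the places of non-zero weight. -/
def Sup (D : Fin (n + 1) → Derivation k K K) (A : Subalgebra k K) (x : K)
    (t : Fin (n + 1) → K) : Set (PF.Pl k K) :=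
  {R | R ∈ Set.range (TG1h47.res (kap k t)) ∧ wtR D A x t R ≠ 0}

theorem Sup_finite (dat : Dat D z A) {x : K} {t : Fin (n + 1) → K}
    (hW : Wr D (Fin.cons x t) ≠ 0) (hfin : ((gd D A t)ᶜ).Finite) : (Sup D A x t).Finite := by
  have h1 : ((gd D A t)ᶜ ∪ {Q : PL k t | Q.v (Wr D (Fin.cons x t)) ≠ 0}).Finite :=
    hfin.union (PF.finite_support (ff dat hW) _)
  refine (h1.image (TG1h47.res (kap k t))).subset ?_
  rintro R ⟨⟨Q, rfl⟩, hQ⟩
  refine ⟨Q, ?_, rfl⟩
  by_contra h2
  rw [Set.mem_union, not_or, Set.mem_compl_iff, not_not] at h2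
  obtain ⟨h3, h4⟩ := h2
  apply hQ
  have h3' : Good D A Q.vs ∧ Q.v (t 0) = 0 := h3
  rw [wtR, TG1h47.res_vs, TG1h47.res_v, if_pos h3']
  by_contra h5
  exact h4 h5

end

end Pool.Agent.TG1
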