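import Pool.Agent.Lib.TG1_h47.DFa
import Pool.Agent.Lib.TG1_h47.Cone

/-!
# Row DF, second part: the bad divisors
-/

set_option autoImplicit false

namespace Pool.Agent.TG1

open MvPolynomial
open Pool.Agent.TG (Ov ZDim IsMin)
open Pool.Agent.TGh33 (Wr DB row Wr_def det_mem)
open Pool.Agent.TGh71 (dsum pol wgt)
open Pool.Agent.TG1h47 (dgr FinPl IsPlA InfPl)

universe u

variable {k K : Type u} [Field k] [Field K] [Algebra k K]

section

variable {n : ℕ} {D : Fin (n + 1) → Derivation k K K} {z : Fin (n + 1) → K} {A : Subalgebra k K}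

theorem good_Wr_mem {P : ValuationSubring K} (hP : Good D A P) {x : K} {t : Fin (n + 1) → K}
    (hx : x ∈ P) (ht : ∀ j, t j ∈ P) : Wr D (Fin.cons x t) ∈ P := by
  rw [Wr_def]
  refine det_mem P.toSubring _ fun j i => ?_
  have hf : (Fin.cons x t : Fin (n + 2) → K) j ∈ P := by
    refine Fin.cases ?_ (fun j => ?_) j
    · exact hx
    · exact ht j
  change (Fin.cons _ _ : Fin (n + 2) → K) i ∈ P
  refine Fin.cases ?_ (fun i => ?_) i
  · exact hf
  · exact hP.stab i _ hf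

theorem tr_mem {P : ValuationSubring K} (hk : ∀ c : k, algebraMap k K c ∈ P) {x : K}
    {t : Fin (n + 1) → K} (hx : x ∈ P) (ht : ∀ j, t j ∈ P) (c : Fin (n + 1) → k)
    (j : Fin (n + 1)) : tr x t c j ∈ P := by
  rw [tr, Algebra.smul_def]
  exact sub_mem (ht j) (mul_mem (hk _) hx)

theorem wtR_nonneg {x : K} {t : Fin (n + 1) → K} (hx : x ∈ A) (ht : ∀ j, t j ∈ A)
    (c : Fin (n + 1) → k) (R : PF.Pl k K) : 0 ≤ wtR D A x (tr x t c) R := by
  classical
  rw [wtR]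
  split_ifs with h1 h2
  · rw [← PF.Pl.mem_vs']
    exact good_Wr_mem h1.1 (h1.1.le x hx)
      (tr_mem R.algebraMap_mem_vs (h1.1.le x hx) (fun j => h1.1.le _ (ht j)) c)
  · exact zero_le_one
  · exact le_rfl

theorem isPlA_of_mem_Sup {x : K} (hx0 : x ≠ 0) (hx : x ∈ A) {t : Fin (n + 1) → K}
    {c : Fin (n + 1) → k} (hs0 : TG1h47.sh (crd x t) c 0 ≠ 0) {R : PF.Pl k K}
    (hR : R ∈ Sup D A x (tr x t c)) : IsPlA (crd x t) c R.vs := by
  classical
  obtain ⟨h1, h2⟩ := hR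
  refine ⟨?_, R.vs_ne_top, ?_⟩
  · rw [TG1h47.mem_range_res', kap_tr hx0] at h1
    exact h1
  · rw [PF.Pl.mem_vs', R.map_inv, neg_nonneg]
    have h3 : R.v (tr x t c 0) = R.v x + R.v (TG1h47.sh (crd x t) c 0) := by
      rw [tr_eq hx0, R.mul _ _ hx0 hs0]
    rw [wtR] at h2
    split_ifs at h2 with h4 h5
    · have h6 : 0 ≤ R.v x := by
        rw [← PF.Pl.mem_vs']
        exact h4.1.le x hx
      have := h4.2
      omega
    · omega
    · exact absurd rfl h2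

theorem v_sh_eq {l : Fin (n + 1) → K} {c : Fin (n + 1) → k}
    {h : MvPolynomial (Fin (n + 1)) k} {R : PF.Pl k K} (hF : FinPl l h R.vs)
    (hP : IsPlA l c R.vs) : R.v (TG1h47.sh l c 0) = 0 := by
  have h1 : TG1h47.sh l c 0 ∈ R.vs := sub_mem (hF.mem 0) (hF.const _)
  have h2 := hP.2.2
  rw [PF.Pl.mem_vs'] at h1 h2
  rw [R.map_inv] at h2
  omega

theorem wtR_eq_wI {x : K} (hx0 : x ≠ 0) {t : Fin (n + 1) → K} {c : Fin (n + 1) → k}
    (hs0 : TG1h47.sh (crd x t) c 0 ≠ 0) {R : PF.Pl k K}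
    (hv : R.v (TG1h47.sh (crd x t) c 0) = 0) :
    wtR D A x (tr x t c) R = wI D A x (Wr D (Fin.cons x t)) R := by
  classical
  have h3 : R.v (tr x t c 0) = R.v x := by
    rw [tr_eq hx0, R.mul _ _ hx0 hs0, hv, add_zero]
  rw [wtR, wI, h3, Wr_tr, if_pos le_rfl]

/-- The set of the bad divisors. -/
def Bd (D : Fin (n + 1) → Derivation k K K) (A : Subalgebra k K) (x : K)
    (t : Fin (n + 1) → K) : Set (PF.Pl k K) :=
  {R | (∃ h : MvPolynomial (Fin (n + 1)) k, Irreducible h ∧ FinPl (crd x t) h R.vs) ∧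
    wI D A x (Wr D (Fin.cons x t)) R ≠ 0}

/-- The residue degree over `k(t_i / x)`. -/
noncomputable def eR (x : K) (t : Fin (n + 1) → K) (R : PF.Pl k K) : ℕ :=
  dgr (IntermediateField.adjoin k (Set.range (crd x t))).toSubfield R.vs


theorem of_ne {x : K} (hx0 : x ≠ 0) {t : Fin (n + 1) → K}
    (hl : AlgebraicIndependent k (crd x t)) {h : MvPolynomial (Fin (n + 1)) k}
    (hirr : Irreducible h) {R : PF.Pl k K} (hF : FinPl (crd x t) h R.vs) {c : Fin (n + 1) → k}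
    (hc : TG1h47.ordAt c h ≠ h.totalDegree) :
    R ∈ Set.range (TG1h47.res (kap k (tr x t c))) ∧
      dgr (kap k (tr x t c)).toSubfield R.vs = (h.totalDegree - TG1h47.ordAt c h) * eR x t R ∧
      wtR D A x (tr x t c) R = wI D A x (Wr D (Fin.cons x t)) R := by
  have h1 : IsPlA (crd x t) c R.vs := hF.isPlA hl hirr hc
  have hs0 := (TG1h47.rat_indep hl c).2
  refine ⟨?_, ?_, wtR_eq_wI hx0 hs0 (v_sh_eq hF h1)⟩
  · rw [TG1h47.mem_range_res', kap_tr hx0]
    exact h1.1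
  · rw [kap_tr hx0]
    exact hF.dgr_kap hl hirr h1

theorem of_mem_Sup {x : K} (hx0 : x ≠ 0) (hx : x ∈ A) {t : Fin (n + 1) → K}
    (hl : AlgebraicIndependent k (crd x t)) {h : MvPolynomial (Fin (n + 1)) k}
    (hirr : Irreducible h) {R : PF.Pl k K} (hF : FinPl (crd x t) h R.vs) {c : Fin (n + 1) → k}
    (hR : R ∈ Sup D A x (tr x t c)) :
    dgr (kap k (tr x t c)).toSubfield R.vs = (h.totalDegree - TG1h47.ordAt c h) * eR x t R ∧
      wtR D A x (tr x t c) R = wI D A x (Wr D (Fin.cons x t)) R := by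
  have hs0 := (TG1h47.rat_indep hl c).2
  have h1 := isPlA_of_mem_Sup hx0 hx hs0 hR
  refine ⟨?_, wtR_eq_wI hx0 hs0 (v_sh_eq hF h1)⟩
  rw [kap_tr hx0]
  exact hF.dgr_kap hl hirr h1

theorem Bd_finite [Infinite k] (dat : Dat D z A) {x : K} {t : Fin (n + 1) → K}
    (hW : Wr D (Fin.cons x t) ≠ 0)
    (hfin : ∀ c : Fin (n + 1) → k, ((gd D A (tr x t c))ᶜ).Finite) : (Bd D A x t).Finite := by
  have hl := algInd_crd dat hW
  have hx0 : x ≠ 0 := ffi_x hW
  have h1 : (⋃ c ∈ TG1h47.centers k n, Sup D A x (tr x t c)).Finite := by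
    refine Set.Finite.biUnion TG1h47.centers_finite fun c _ => ?_
    refine Sup_finite dat (x := x) (t := tr x t c) ?_ (hfin c)
    rw [Wr_tr]
    exact hW
  refine h1.subset ?_
  rintro R ⟨⟨h, hirr, hF⟩, hw⟩
  obtain ⟨c, hc, hne⟩ := TG1h47.exists_center hirr
  rw [Set.mem_iUnion₂]
  obtain ⟨h2, -, h4⟩ := of_ne (D := D) (A := A) hx0 hl hirr hF hne
  exact ⟨c, hc, h2, by rw [h4]; exact hw⟩

theorem eR_pos [Infinite k] (dat : Dat D z A) {x : K} {t : Fin (n + 1) → K}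
    (hW : Wr D (Fin.cons x t) ≠ 0) {h : MvPolynomial (Fin (n + 1)) k}
    (hirr : Irreducible h) {R : PF.Pl k K} (hF : FinPl (crd x t) h R.vs) : 0 < eR x t R := by
  have hl := algInd_crd dat hW
  have hx0 : x ≠ 0 := ffi_x hW
  obtain ⟨c, -, hne⟩ := TG1h47.exists_center hirr
  obtain ⟨⟨Q, rfl⟩, h3, -⟩ := of_ne (D := D) (A := A) hx0 hl hirr hF hne
  have hFF : PF.FF (kap k (tr x t c)) K := ff dat (x := x) (by rw [Wr_tr]; exact hW)
  have h4 := Q.deg_pos hFF
  rw [deg_eq] at h4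
  rw [TG1h47.res_vs] at h3
  rw [h3] at h4
  exact Nat.pos_of_mul_pos_left h4

/-- `β` as a finite sum. -/
theorem bet_eq_sum (x : K) (t : Fin (n + 1) → K) (T : Finset (PF.Pl k K))
    (hT : Sup D A x t ⊆ T) :
    bet D A x t = ∑ R ∈ T, (Set.range (TG1h47.res (kap k t))).indicator
      (fun R => wtR D A x t R * (dgr (kap k t).toSubfield R.vs : ℤ)) R := by
  rw [bet_eq, finsum_mem_def]
  apply finsum_eq_sum_of_support_subset
  intro R hR
  rw [Function.mem_support] at hR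
  apply hT
  have h1 : R ∈ Set.range (TG1h47.res (kap k t)) := by
    by_contra h1
    exact hR (Set.indicator_of_notMem h1 _)
  rw [Set.indicator_of_mem h1] at hR
  exact ⟨h1, left_ne_zero_of_mul hR⟩

end

end Pool.Agent.TG1
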