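import Pool.Agent.Lib.TG1_h47.DFb

/-!
# Row DF, third part: `β(x, t^c) = Σ w_R e_R (deg h_R - ord_c h_R)`
-/

set_option autoImplicit false

namespace Pool.Agent.TG1

open MvPolynomial
open Pool.Agent.TG (Ov ZDim IsMin)
open Pool.Agent.TGh33 (Wr DB)
open Pool.Agent.TG1h47 (dgr FinPl IsPlA InfPl)

universe u

variable {k K : Type u} [Field k] [Field K] [Algebra k K]

section

variable {n : ℕ} {D : Fin (n + 1) → Derivation k K K} {z : Fin (n + 1) → K} {A : Subalgebra k K}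

open Classical in
/-- The polynomial of a divisor. -/
noncomputable def hof (x : K) (t : Fin (n + 1) → K) (R : PF.Pl k K) :
    MvPolynomial (Fin (n + 1)) k :=
  if h : ∃ h : MvPolynomial (Fin (n + 1)) k, Irreducible h ∧ FinPl (crd x t) h R.vs then
    h.choose else 1

theorem hof_spec {x : K} {t : Fin (n + 1) → K} {R : PF.Pl k K}
    (h : ∃ h : MvPolynomial (Fin (n + 1)) k, Irreducible h ∧ FinPl (crd x t) h R.vs) :
    Irreducible (hof x t R) ∧ FinPl (crd x t) (hof x t R) R.vs := by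
  rw [hof, dif_pos h]
  exact h.choose_spec

theorem hof_ne_zero (x : K) (t : Fin (n + 1) → K) (R : PF.Pl k K) : hof x t R ≠ 0 := by
  rw [hof]
  split_ifs with h
  · exact h.choose_spec.1.ne_zero
  · exact one_ne_zero

theorem wI_nonneg {x : K} {t : Fin (n + 1) → K} (hx : x ∈ A) (ht : ∀ j, t j ∈ A)
    (R : PF.Pl k K) : 0 ≤ wI D A x (Wr D (Fin.cons x t)) R := by
  rw [wI]
  split_ifs with h1
  · rw [← PF.Pl.mem_vs']
    exact good_Wr_mem h1.1 (h1.1.le x hx) (fun j => h1.1.le _ (ht j))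
  · exact zero_le_one

/-- `β` at a centre where no bad divisor is at infinity. -/
theorem bet_eq_Bd {x : K} (hx0 : x ≠ 0) {t : Fin (n + 1) → K}
    (hl : AlgebraicIndependent k (crd x t)) (hx : x ∈ A) {c : Fin (n + 1) → k}
    (T : Finset (PF.Pl k K)) (hT : ∀ R, R ∈ T ↔ R ∈ Bd D A x t)
    (hsub : Sup D A x (tr x t c) ⊆ Bd D A x t) :
    bet D A x (tr x t c) = ∑ R ∈ T, wI D A x (Wr D (Fin.cons x t)) R *
      ((((hof x t R).totalDegree - TG1h47.ordAt c (hof x t R)) * eR x t R : ℕ) : ℤ) := by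
  classical
  rw [bet_eq_sum x (tr x t c) T (fun R hR => (hT R).2 (hsub hR))]
  refine Finset.sum_congr rfl fun R hR => ?_
  have hB := (hT R).1 hR
  obtain ⟨hirr, hF⟩ := hof_spec hB.1
  by_cases h1 : R ∈ Sup D A x (tr x t c)
  · obtain ⟨h2, h3⟩ := of_mem_Sup hx0 hx hl hirr hF h1
    rw [Set.indicator_of_mem h1.1, h2, h3]
  · have h4 : (Set.range (TG1h47.res (kap k (tr x t c)))).indicator
        (fun R => wtR D A x (tr x t c) R * (dgr (kap k (tr x t c)).toSubfield R.vs : ℤ)) R = 0 := by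
      by_cases h5 : R ∈ Set.range (TG1h47.res (kap k (tr x t c)))
      · rw [Set.indicator_of_mem h5]
        have h6 : wtR D A x (tr x t c) R = 0 := by
          by_contra h6
          exact h1 ⟨h5, h6⟩
        rw [h6, zero_mul]
      · exact Set.indicator_of_notMem h5 _
    rw [h4]
    have h7 : TG1h47.ordAt c (hof x t R) = (hof x t R).totalDegree := by
      by_contra h7
      obtain ⟨h8, -, h9⟩ := of_ne (D := D) (A := A) hx0 hl hirr hF h7
      exact h1 ⟨h8, by rw [h9]; exact hB.2⟩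
    rw [h7, Nat.sub_self, zero_mul, Nat.cast_zero, mul_zero]

/-- The lower bound for `β`. -/
theorem le_bet {x : K} (hx0 : x ≠ 0) {t : Fin (n + 1) → K}
    (hl : AlgebraicIndependent k (crd x t)) (hx : x ∈ A) (ht : ∀ j, t j ∈ A)
    {c : Fin (n + 1) → k} (T : Finset (PF.Pl k K)) (hT : ∀ R, R ∈ T ↔ R ∈ Bd D A x t)
    (hfin : (Sup D A x (tr x t c)).Finite) :
    ∑ R ∈ T, wI D A x (Wr D (Fin.cons x t)) R *
      ((((hof x t R).totalDegree - TG1h47.ordAt c (hof x t R)) * eR x t R : ℕ) : ℤ) ≤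
    bet D A x (tr x t c) := by
  classical
  have hnn : ∀ R, 0 ≤ (Set.range (TG1h47.res (kap k (tr x t c)))).indicator
      (fun R => wtR D A x (tr x t c) R * (dgr (kap k (tr x t c)).toSubfield R.vs : ℤ)) R := by
    intro R
    refine Set.indicator_nonneg (fun R _ => ?_) R
    exact mul_nonneg (wtR_nonneg hx ht c R) (Int.natCast_nonneg _)
  rw [bet_eq_sum x (tr x t c) (T ∪ hfin.toFinset) (fun R hR => by
    rw [Finset.coe_union, Set.mem_union]
    right
    rw [Finset.mem_coe, Set.Finite.mem_toFinset]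
    exact hR)]
  refine le_trans ?_ (Finset.sum_le_sum_of_subset_of_nonneg Finset.subset_union_left
    fun R _ _ => hnn R)
  refine Finset.sum_le_sum fun R hR => ?_
  have hB := (hT R).1 hR
  obtain ⟨hirr, hF⟩ := hof_spec hB.1
  by_cases h7 : TG1h47.ordAt c (hof x t R) = (hof x t R).totalDegree
  · rw [h7, Nat.sub_self, zero_mul, Nat.cast_zero, mul_zero]
    exact hnn R
  · obtain ⟨h8, h9, h10⟩ := of_ne (D := D) (A := A) hx0 hl hirr hF h7
    rw [Set.indicator_of_mem h8, h9, h10]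

/-- The polynomial `F`. -/
noncomputable def Fpol (D : Fin (n + 1) → Derivation k K K) (A : Subalgebra k K) (x : K)
    (t : Fin (n + 1) → K) (T : Finset (PF.Pl k K)) : MvPolynomial (Fin (n + 1)) k :=
  ∏ R ∈ T, hof x t R ^ ((wI D A x (Wr D (Fin.cons x t)) R).toNat * eR x t R)

theorem Fpol_ne_zero (x : K) (t : Fin (n + 1) → K) (T : Finset (PF.Pl k K)) :
    Fpol D A x t T ≠ 0 :=
  Finset.prod_ne_zero_iff.2 fun R _ => pow_ne_zero _ (hof_ne_zero x t R)

theorem ordAt_Fpol (x : K) (t : Fin (n + 1) → K) (T : Finset (PF.Pl k K))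
    (c : Fin (n + 1) → k) :
    TG1h47.ordAt c (Fpol D A x t T) = ∑ R ∈ T,
      ((wI D A x (Wr D (Fin.cons x t)) R).toNat * eR x t R) * TG1h47.ordAt c (hof x t R) := by
  rw [Fpol, TG1h47.ordAt_prod c T _ fun R _ => pow_ne_zero _ (hof_ne_zero x t R)]
  exact Finset.sum_congr rfl fun R _ => TG1h47.ordAt_pow c (hof_ne_zero x t R) _

theorem eval_hof_ne_zero [Infinite k] (dat : Dat D z A) {x : K} {t : Fin (n + 1) → K}
    (hW : Wr D (Fin.cons x t) ≠ 0) (hx : x ∈ A) (ht : ∀ j, t j ∈ A)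
    (T : Finset (PF.Pl k K)) (hT : ∀ R, R ∈ T ↔ R ∈ Bd D A x t)
    {c : Fin (n + 1) → k} (hc : eval c (Fpol D A x t T) ≠ 0) {R : PF.Pl k K} (hR : R ∈ T) :
    eval c (hof x t R) ≠ 0 := by
  have hB := (hT R).1 hR
  obtain ⟨hirr, hF⟩ := hof_spec hB.1
  intro h0
  apply hc
  rw [Fpol, map_prod]
  refine Finset.prod_eq_zero hR ?_
  rw [map_pow, h0]
  refine zero_pow ?_
  have h1 := eR_pos dat hW hirr hF
  have h2 := wI_nonneg (D := D) hx ht R
  have h3 := hB.2
  have h4 : 0 < (wI D A x (Wr D (Fin.cons x t)) R).toNat := by omega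
  exact (Nat.mul_pos h4 h1).ne'

/-- **The inequality.** -/
theorem bet_add_ord_le [Infinite k] (dat : Dat D z A) {x : K} {t : Fin (n + 1) → K}
    (hW : Wr D (Fin.cons x t) ≠ 0) (hx : x ∈ A) (ht : ∀ j, t j ∈ A)
    (hfin : ∀ c : Fin (n + 1) → k, ((gd D A (tr x t c))ᶜ).Finite)
    (T : Finset (PF.Pl k K)) (hT : ∀ R, R ∈ T ↔ R ∈ Bd D A x t)
    {b : Fin (n + 1) → k} (hsub : Sup D A x (tr x t b) ⊆ Bd D A x t)
    {c : Fin (n + 1) → k} (hc : eval c (Fpol D A x t T) ≠ 0) :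
    bet D A x (tr x t b) + TG1h47.ordAt b (Fpol D A x t T) ≤ bet D A x (tr x t c) := by
  have hl := algInd_crd dat hW
  have hx0 : x ≠ 0 := ffi_x hW
  have hS : (Sup D A x (tr x t c)).Finite :=
    Sup_finite dat (x := x) (t := tr x t c) (by rw [Wr_tr]; exact hW) (hfin c)
  refine le_trans (le_of_eq ?_) (le_bet hx0 hl hx ht T hT hS)
  rw [bet_eq_Bd hx0 hl hx T hT hsub, ordAt_Fpol, Nat.cast_sum, ← Finset.sum_add_distrib]
  refine Finset.sum_congr rfl fun R hR => ?_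
  have h1 : TG1h47.ordAt c (hof x t R) = 0 :=
    TG1h47.ordAt_eq_zero (eval_hof_ne_zero dat hW hx ht T hT hc hR)
  have h2 := TG1h47.ordAt_le_totalDegree b (hof_ne_zero x t R)
  have h3 : (((wI D A x (Wr D (Fin.cons x t)) R).toNat : ℕ) : ℤ) =
      wI D A x (Wr D (Fin.cons x t)) R := Int.toNat_of_nonneg (wI_nonneg hx ht R)
  rw [h1, Nat.sub_zero]
  push_cast [Nat.cast_sub h2]
  rw [h3]
  ring

end

end Pool.Agent.TG1
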