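import Pool.Agent.Lib.TG1_h47.Tr

/-!
# Residues of subfields

`rF P F` is the image of `F ∩ P` in the residue field of the valuation ring `P`, and
`dgr F P` is the degree of the residue field over it.
-/

set_option autoImplicit false

namespace Pool.Agent.TG1h47

section Basic

variable {K : Type*} [Field K]

open IsLocalRing

/-- The residues of the elements of the subfield `F`. -/
def rF (P : ValuationSubring K) (F : Subfield K) : Subfield (ResidueField P) where
  carrier := {y | ∃ x : P, (x : K) ∈ F ∧ residue P x = y}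
  mul_mem' := by
    rintro _ _ ⟨x, hx, rfl⟩ ⟨y, hy, rfl⟩
    exact ⟨x * y, mul_mem hx hy, map_mul _ _ _⟩
  one_mem' := ⟨1, one_mem F, map_one _⟩
  add_mem' := by
    rintro _ _ ⟨x, hx, rfl⟩ ⟨y, hy, rfl⟩
    exact ⟨x + y, add_mem hx hy, map_add _ _ _⟩
  zero_mem' := ⟨0, zero_mem F, map_zero _⟩
  neg_mem' := by
    rintro _ ⟨x, hx, rfl⟩
    exact ⟨-x, neg_mem hx, map_neg _ _⟩
  inv_mem' := by
    rintro _ ⟨x, hx, rfl⟩
    by_cases h : residue P x = 0
    · rw [h, inv_zero]
      exact ⟨0, zero_mem F, map_zero _⟩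
    · have hu : IsUnit x := by
        by_contra hu
        exact h ((residue_eq_zero_iff x).2 ((mem_maximalIdeal x).2 hu))
      obtain ⟨u, rfl⟩ := hu
      refine ⟨((u⁻¹ : Pˣ) : P), ?_, ?_⟩
      · have h1 : (((u⁻¹ : Pˣ) : P) : K) = ((u : P) : K)⁻¹ := by
          apply eq_inv_of_mul_eq_one_left
          have : ((u⁻¹ : Pˣ) : P) * (u : P) = 1 := u.inv_mul
          exact congrArg (fun z : P => (z : K)) this
        rw [h1]
        exact inv_mem hx
      · apply eq_inv_of_mul_eq_one_left
        rw [← map_mul, u.inv_mul, map_one]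

theorem mem_rF {P : ValuationSubring K} {F : Subfield K} {y : ResidueField P} :
    y ∈ rF P F ↔ ∃ x : P, (x : K) ∈ F ∧ residue P x = y := Iff.rfl

/-- The degree of the residue field over the residues of `F`. -/
noncomputable def dgr (F : Subfield K) (P : ValuationSubring K) : ℕ :=
  Module.finrank (rF P F) (ResidueField P)

theorem residue_ne_zero_iff {P : ValuationSubring K} (x : P) :
    residue P x ≠ 0 ↔ (x : K) ≠ 0 ∧ (x : K)⁻¹ ∈ P := by
  rw [Ne, residue_eq_zero_iff, mem_maximalIdeal, mem_nonunits_iff, not_not]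
  constructor
  · rintro ⟨u, rfl⟩
    have h1 : ((u : P) : K) * (((u⁻¹ : Pˣ) : P) : K) = 1 := by
      have : (u : P) * ((u⁻¹ : Pˣ) : P) = 1 := u.mul_inv
      exact congrArg (fun z : P => (z : K)) this
    have h2 : ((u : P) : K) ≠ 0 := left_ne_zero_of_mul_eq_one h1
    refine ⟨h2, ?_⟩
    rw [← eq_inv_of_mul_eq_one_right h1]
    exact (((u⁻¹ : Pˣ) : P)).2
  · rintro ⟨h1, h2⟩
    exact IsUnit.of_mul_eq_one ⟨(x : K)⁻¹, h2⟩ (Subtype.ext (mul_inv_cancel₀ h1))

theorem residue_inv {P : ValuationSubring K} (x : P) (h : (x : K)⁻¹ ∈ P) (h0 : (x : K) ≠ 0) :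
    residue P ⟨(x : K)⁻¹, h⟩ = (residue P x)⁻¹ := by
  apply eq_inv_of_mul_eq_one_left
  rw [← map_mul, ← map_one (residue P)]
  exact congrArg _ (Subtype.ext (inv_mul_cancel₀ h0))

end Basic

section Alg

variable {k K : Type*} [Field k] [Field K] [Algebra k K]

open IsLocalRing

/-- The constants in the residue field. -/
noncomputable def kres (P : ValuationSubring K) (hk : ∀ c : k, algebraMap k K c ∈ P) : k →+* ResidueField P :=
  (residue P).comp ((algebraMap k K).codRestrict P.toSubring hk)

theorem kres_apply (P : ValuationSubring K) (hk : ∀ c : k, algebraMap k K c ∈ P) (c : k) :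
    kres P hk c = residue P ⟨algebraMap k K c, hk c⟩ := rfl

/-- The residue field as a `k`-algebra. -/
noncomputable abbrev algRes (P : ValuationSubring K) (hk : ∀ c : k, algebraMap k K c ∈ P) :
    Algebra k (ResidueField P) := (kres P hk).toAlgebra

/-- The residues of a family. -/
noncomputable def fres {ι : Type*} (P : ValuationSubring K) (s : ι → K) (hs : ∀ i, s i ∈ P) (i : ι) :
    ResidueField P := residue P ⟨s i, hs i⟩

theorem aeval_mem {ι : Type*} {P : ValuationSubring K} (hk : ∀ c : k, algebraMap k K c ∈ P)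
    {s : ι → K} (hs : ∀ i, s i ∈ P) (g : MvPolynomial ι k) : MvPolynomial.aeval s g ∈ P := by
  induction g using MvPolynomial.induction_on with
  | C c => rw [MvPolynomial.algHom_C]; exact hk c
  | add p q hp hq => rw [map_add]; exact add_mem hp hq
  | mul_X p i hp => rw [map_mul, MvPolynomial.aeval_X]; exact mul_mem hp (hs i)

theorem residue_aeval' {ι : Type*} {P : ValuationSubring K}
    (hk : ∀ c : k, algebraMap k K c ∈ P) {s : ι → K} (hs : ∀ i, s i ∈ P)
    (g : MvPolynomial ι k) (x : P) (hx : (x : K) = MvPolynomial.aeval s g) :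
    letI := algRes P hk
    residue P x = MvPolynomial.aeval (fres P s hs) g := by
  letI := algRes P hk
  induction g using MvPolynomial.induction_on generalizing x with
  | C c =>
    rw [MvPolynomial.algHom_C]
    change _ = kres P hk c
    rw [kres_apply]
    congr 1
    exact Subtype.ext (by rw [hx]; exact MvPolynomial.algHom_C _ _)
  | add p q hp hq =>
    have h1 : x = ⟨MvPolynomial.aeval s p, aeval_mem hk hs p⟩ +
        ⟨MvPolynomial.aeval s q, aeval_mem hk hs q⟩ := Subtype.ext (by rw [hx, map_add]; rfl)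
    rw [h1, map_add, map_add, ← hp ⟨_, aeval_mem hk hs p⟩ rfl, ← hq ⟨_, aeval_mem hk hs q⟩ rfl]
  | mul_X p i hp =>
    have h1 : x = ⟨MvPolynomial.aeval s p, aeval_mem hk hs p⟩ * ⟨s i, hs i⟩ :=
      Subtype.ext (by rw [hx, map_mul, MvPolynomial.aeval_X]; rfl)
    rw [h1, map_mul, map_mul, ← hp ⟨_, aeval_mem hk hs p⟩ rfl, MvPolynomial.aeval_X, fres]

theorem residue_aeval {ι : Type*} {P : ValuationSubring K}
    (hk : ∀ c : k, algebraMap k K c ∈ P) {s : ι → K} (hs : ∀ i, s i ∈ P)
    (g : MvPolynomial ι k) :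
    letI := algRes P hk
    residue P ⟨MvPolynomial.aeval s g, aeval_mem hk hs g⟩ = MvPolynomial.aeval (fres P s hs) g :=
  residue_aeval' hk hs g _ rfl

/-- If the residues are independent, the field generated lies in `P`. -/
theorem adjoin_le {ι : Type*} {P : ValuationSubring K} (hk : ∀ c : k, algebraMap k K c ∈ P)
    {s : ι → K} (hs : ∀ i, s i ∈ P)
    (hi : letI := algRes P hk; AlgebraicIndependent k (fres P s hs)) :
    ∀ x ∈ IntermediateField.adjoin k (Set.range s), x ∈ P := by
  letI := algRes P hk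
  intro x hx
  obtain ⟨r, q, rfl⟩ := (IntermediateField.mem_adjoin_range_iff k s x).1 hx
  by_cases hq : q = 0
  · rw [hq, map_zero, div_zero]; exact zero_mem P
  have h1 : MvPolynomial.aeval (fres P s hs) q ≠ 0 := fun h => hq (by
    rw [AlgebraicIndependent] at hi
    exact hi (by rw [h, map_zero]))
  rw [← residue_aeval hk hs, residue_ne_zero_iff] at h1
  rw [div_eq_mul_inv]
  exact mul_mem (aeval_mem hk hs r) h1.2

/-- The residues of a field contained in `P`. -/
theorem rF_adjoin {ι : Type*} {P : ValuationSubring K} (hk : ∀ c : k, algebraMap k K c ∈ P)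
    {s : ι → K} (hs : ∀ i, s i ∈ P)
    (hle : ∀ x ∈ IntermediateField.adjoin k (Set.range s), x ∈ P) :
    letI := algRes P hk
    rF P (IntermediateField.adjoin k (Set.range s)).toSubfield =
      (IntermediateField.adjoin k (Set.range (fres P s hs))).toSubfield := by
  letI := algRes P hk
  apply le_antisymm
  · rintro _ ⟨x, hx, rfl⟩
    obtain ⟨r, q, hrq⟩ := (IntermediateField.mem_adjoin_range_iff k s (x : K)).1 hx
    by_cases hq : MvPolynomial.aeval s q = (0 : K)
    · have : x = 0 := Subtype.ext (by rw [hrq, hq, div_zero]; rfl)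
      rw [this, map_zero]
      exact zero_mem _
    have hqm : MvPolynomial.aeval s q ∈ IntermediateField.adjoin k (Set.range s) :=
      (IntermediateField.mem_adjoin_range_iff k s _).2 ⟨q, 1, by rw [map_one, div_one]⟩
    have hqi := hle _ (inv_mem hqm)
    have h1 : x = ⟨MvPolynomial.aeval s r, aeval_mem hk hs r⟩ *
        ⟨(MvPolynomial.aeval s q)⁻¹, hqi⟩ := Subtype.ext (by
      rw [hrq, div_eq_mul_inv]; rfl)
    rw [h1, map_mul, residue_inv ⟨MvPolynomial.aeval s q, aeval_mem hk hs q⟩ hqi hq,
      residue_aeval hk hs, residue_aeval hk hs]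
    change _ ∈ IntermediateField.adjoin k (Set.range (fres P s hs))
    refine (IntermediateField.mem_adjoin_range_iff k _ _).2 ⟨r, q, (div_eq_mul_inv _ _).symm⟩
  · have h1 : IntermediateField.adjoin k (Set.range (fres P s hs)) ≤
        ({ rF P (IntermediateField.adjoin k (Set.range s)).toSubfield with
          algebraMap_mem' := fun c => ⟨⟨algebraMap k K c, hk c⟩,
            (IntermediateField.algebraMap_mem _ c), rfl⟩ } :
          IntermediateField k (ResidueField P)) := by
      rw [IntermediateField.adjoin_le_iff]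
      rintro _ ⟨i, rfl⟩
      exact ⟨⟨s i, hs i⟩, IntermediateField.subset_adjoin k _ ⟨i, rfl⟩, rfl⟩
    exact fun y hy => h1 hy

/-- If the field generated lies in `P`, the residues are independent. -/
theorem fres_indep {ι : Type*} {P : ValuationSubring K} (hk : ∀ c : k, algebraMap k K c ∈ P)
    {s : ι → K} (hs : ∀ i, s i ∈ P) (hi : AlgebraicIndependent k s)
    (hle : ∀ x ∈ IntermediateField.adjoin k (Set.range s), x ∈ P) :
    letI := algRes P hk
    AlgebraicIndependent k (fres P s hs) := by
  letI := algRes P hk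
  rw [algebraicIndependent_iff]
  intro q hq
  by_contra hq0
  have h1 : MvPolynomial.aeval s q ≠ (0 : K) := fun h => hq0 (by
    rw [AlgebraicIndependent] at hi
    exact hi (by rw [h, map_zero]))
  have hqm : MvPolynomial.aeval s q ∈ IntermediateField.adjoin k (Set.range s) :=
    (IntermediateField.mem_adjoin_range_iff k s _).2 ⟨q, 1, by rw [map_one, div_one]⟩
  have h2 := (residue_ne_zero_iff ⟨MvPolynomial.aeval s q, aeval_mem hk hs q⟩).2
    ⟨h1, hle _ (inv_mem hqm)⟩
  rw [residue_aeval hk hs] at h2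
  exact h2 hq

theorem dgr_adjoin {ι : Type*} {P : ValuationSubring K} (hk : ∀ c : k, algebraMap k K c ∈ P)
    {s : ι → K} (hs : ∀ i, s i ∈ P)
    (hle : ∀ x ∈ IntermediateField.adjoin k (Set.range s), x ∈ P) :
    letI := algRes P hk
    dgr (IntermediateField.adjoin k (Set.range s)).toSubfield P =
      Module.finrank (IntermediateField.adjoin k (Set.range (fres P s hs))) (ResidueField P) := by
  letI := algRes P hk
  rw [dgr, rF_adjoin hk hs hle]
  rfl

end Alg

end Pool.Agent.TG1h47
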