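import Pool.Agent.Lib.TG1_h5.Deg

/-!
# Translations: the order of a polynomial at a point, residue degrees over the lines through a point

`ordAt a h` is the order of `h` at the point `a`. For elements `x : Fin (m + 1) → L` of a field whose
relations are generated by `h`, the degree of `L` over the field generated by the ratios
`(x i.succ - a i.succ) / (x 0 - a 0)` is `(deg h - ord_a h) [L : k(x)]`.
-/

set_option autoImplicit false

open Polynomial

namespace Pool.Agent.TG1h47

open Pool.Agent.TG1h5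
open Pool.Agent.TAO (wo wo_mul wo_C wo_X wo_le exists_wo)

section Tr

variable {k : Type*} [Field k] {m : ℕ}

/-- The translation `h ↦ h(X + a)`. -/
noncomputable def tr (a : Fin (m + 1) → k) :
    MvPolynomial (Fin (m + 1)) k →ₐ[k] MvPolynomial (Fin (m + 1)) k :=
  MvPolynomial.aeval fun i => MvPolynomial.X i + MvPolynomial.C (a i)

theorem tr_X (a : Fin (m + 1) → k) (i : Fin (m + 1)) :
    tr a (MvPolynomial.X i) = MvPolynomial.X i + MvPolynomial.C (a i) := by
  rw [tr, MvPolynomial.aeval_X]

theorem tr_C (a : Fin (m + 1) → k) (c : k) :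
    tr a (MvPolynomial.C c) = MvPolynomial.C c := by
  rw [tr, MvPolynomial.algHom_C]
  rfl

theorem tr_tr (a b : Fin (m + 1) → k) (h : MvPolynomial (Fin (m + 1)) k) :
    tr a (tr b h) = tr (a + b) h := by
  have : (tr a).comp (tr b) = tr (a + b) := by
    apply MvPolynomial.algHom_ext
    intro i
    rw [AlgHom.comp_apply, tr_X, map_add, tr_X, tr_C, tr_X, Pi.add_apply, MvPolynomial.C_add,
      add_assoc]
  rw [← this, AlgHom.comp_apply]

theorem tr_zero (h : MvPolynomial (Fin (m + 1)) k) : tr 0 h = h := by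
  have : tr (0 : Fin (m + 1) → k) = AlgHom.id k _ := by
    apply MvPolynomial.algHom_ext
    intro i
    rw [tr_X, Pi.zero_apply, MvPolynomial.C_0, add_zero, AlgHom.id_apply]
  rw [this, AlgHom.id_apply]

theorem tr_neg_tr (a : Fin (m + 1) → k) (h : MvPolynomial (Fin (m + 1)) k) :
    tr (-a) (tr a h) = h := by rw [tr_tr, neg_add_cancel, tr_zero]

theorem tr_tr_neg (a : Fin (m + 1) → k) (h : MvPolynomial (Fin (m + 1)) k) :
    tr a (tr (-a) h) = h := by rw [tr_tr, add_neg_cancel, tr_zero]

theorem tr_injective (a : Fin (m + 1) → k) : Function.Injective (tr a) :=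
  Function.LeftInverse.injective (tr_neg_tr a)

theorem tr_ne_zero (a : Fin (m + 1) → k) {h : MvPolynomial (Fin (m + 1)) k} (h0 : h ≠ 0) :
    tr a h ≠ 0 := fun h1 => h0 (tr_injective a (by rw [h1, map_zero]))

theorem totalDegree_tr_le (a : Fin (m + 1) → k) (h : MvPolynomial (Fin (m + 1)) k) :
    (tr a h).totalDegree ≤ h.totalDegree := by
  classical
  rw [tr, MvPolynomial.aeval_def, MvPolynomial.eval₂_eq]
  refine MvPolynomial.totalDegree_finsetSum_le fun d hd => ?_
  refine (MvPolynomial.totalDegree_mul _ _).trans ?_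
  have h1 : (algebraMap k (MvPolynomial (Fin (m + 1)) k) (h.coeff d)).totalDegree = 0 := by
    rw [MvPolynomial.algebraMap_eq, MvPolynomial.totalDegree_C]
  rw [h1, zero_add]
  refine (MvPolynomial.totalDegree_finsetProd _ _).trans ?_
  have h2 : ∀ i ∈ d.support, ((MvPolynomial.X i + MvPolynomial.C (a i)) ^ d i).totalDegree ≤ d i := by
    intro i _
    refine (MvPolynomial.totalDegree_pow _ _).trans ?_
    have : (MvPolynomial.X i + MvPolynomial.C (a i) : MvPolynomial (Fin (m + 1)) k).totalDegree
        ≤ 1 := by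
      refine (MvPolynomial.totalDegree_add _ _).trans ?_
      rw [MvPolynomial.totalDegree_X, MvPolynomial.totalDegree_C]
      simp
    calc d i * _ ≤ d i * 1 := Nat.mul_le_mul_left _ this
      _ = d i := mul_one _
  refine (Finset.sum_le_sum h2).trans ?_
  exact MvPolynomial.le_totalDegree hd

theorem totalDegree_tr (a : Fin (m + 1) → k) (h : MvPolynomial (Fin (m + 1)) k) :
    (tr a h).totalDegree = h.totalDegree := by
  refine le_antisymm (totalDegree_tr_le a h) ?_
  have := totalDegree_tr_le (-a) (tr a h)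
  rwa [tr_neg_tr] at this

theorem eval_tr (a b : Fin (m + 1) → k) (h : MvPolynomial (Fin (m + 1)) k) :
    MvPolynomial.eval b (tr a h) = MvPolynomial.eval (b + a) h := by
  have : (MvPolynomial.aeval b).comp (tr a) =
      (MvPolynomial.aeval (b + a) : MvPolynomial (Fin (m + 1)) k →ₐ[k] k) := by
    apply MvPolynomial.algHom_ext
    intro i
    rw [AlgHom.comp_apply, tr_X, map_add, MvPolynomial.aeval_X, MvPolynomial.aeval_X,
      MvPolynomial.algHom_C, Pi.add_apply]
    rfl
  have h1 := DFunLike.congr_fun this h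
  rw [AlgHom.comp_apply] at h1
  exact h1

/-- The order of `h` at the point `a`. -/
noncomputable def ordAt (a : Fin (m + 1) → k) (h : MvPolynomial (Fin (m + 1)) k) : ℕ :=
  ord0 (tr a h)

theorem ordAt_mul (a : Fin (m + 1) → k) {g h : MvPolynomial (Fin (m + 1)) k} (hg : g ≠ 0)
    (hh : h ≠ 0) : ordAt a (g * h) = ordAt a g + ordAt a h := by
  rw [ordAt, map_mul]
  exact wo_mul _ (tr_ne_zero a hg) (tr_ne_zero a hh)

theorem ordAt_one (a : Fin (m + 1) → k) : ordAt a (1 : MvPolynomial (Fin (m + 1)) k) = 0 := by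
  rw [ordAt, map_one]
  exact wo_C _ one_ne_zero

theorem ordAt_pow (a : Fin (m + 1) → k) {g : MvPolynomial (Fin (m + 1)) k} (hg : g ≠ 0) (e : ℕ) :
    ordAt a (g ^ e) = e * ordAt a g := by
  induction e with
  | zero => rw [pow_zero, ordAt_one, zero_mul]
  | succ e ih => rw [pow_succ, ordAt_mul a (pow_ne_zero e hg) hg, ih]; ring

theorem ordAt_prod {ι : Type*} (a : Fin (m + 1) → k) (s : Finset ι)
    (g : ι → MvPolynomial (Fin (m + 1)) k) (hg : ∀ i ∈ s, g i ≠ 0) :
    ordAt a (∏ i ∈ s, g i) = ∑ i ∈ s, ordAt a (g i) := by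
  classical
  induction s using Finset.induction_on with
  | empty => rw [Finset.prod_empty, Finset.sum_empty, ordAt_one]
  | insert i s hi ih =>
    rw [Finset.prod_insert hi, Finset.sum_insert hi,
      ordAt_mul a (hg i (Finset.mem_insert_self i s))
        (Finset.prod_ne_zero_iff.2 fun j hj => hg j (Finset.mem_insert_of_mem hj)),
      ih fun j hj => hg j (Finset.mem_insert_of_mem hj)]

theorem ord0_le_totalDegree {g : MvPolynomial (Fin (m + 1)) k} (h0 : g ≠ 0) :
    ord0 g ≤ g.totalDegree := by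
  rw [← trailing_psi h0, ← natDegree_psi]
  exact natTrailingDegree_le_natDegree _

theorem ordAt_le_totalDegree (a : Fin (m + 1) → k) {g : MvPolynomial (Fin (m + 1)) k}
    (h0 : g ≠ 0) : ordAt a g ≤ g.totalDegree := by
  rw [← totalDegree_tr a g]
  exact ord0_le_totalDegree (tr_ne_zero a h0)

theorem ord0_eq_zero {g : MvPolynomial (Fin (m + 1)) k} (h : MvPolynomial.eval 0 g ≠ 0) :
    ord0 g = 0 := by
  have h1 : (0 : Fin (m + 1) →₀ ℕ) ∈ g.support := by
    rw [MvPolynomial.mem_support_iff]
    intro h2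
    apply h
    rw [← MvPolynomial.constantCoeff_eq] at h2
    have : MvPolynomial.eval (0 : Fin (m + 1) → k) g = MvPolynomial.constantCoeff g := by
      rw [← MvPolynomial.eval_zero]
    rw [this, h2]
  have h2 := wo_le (fun _ => 1) h1
  rw [map_zero] at h2
  exact Nat.le_zero.1 h2

theorem ordAt_eq_zero {a : Fin (m + 1) → k} {g : MvPolynomial (Fin (m + 1)) k}
    (h : MvPolynomial.eval a g ≠ 0) : ordAt a g = 0 := by
  apply ord0_eq_zero
  rwa [eval_tr, zero_add]

/-- A factor of a form with center `a` is a form with center `a`. -/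
theorem ordAt_eq_totalDegree_of_dvd {a : Fin (m + 1) → k} {g h : MvPolynomial (Fin (m + 1)) k}
    (hg : g ≠ 0) (hd : h ∣ g) (hform : ordAt a g = g.totalDegree) :
    ordAt a h = h.totalDegree := by
  obtain ⟨r, rfl⟩ := hd
  have hh : h ≠ 0 := left_ne_zero_of_mul hg
  have hr : r ≠ 0 := right_ne_zero_of_mul hg
  rw [ordAt_mul a hh hr, MvPolynomial.totalDegree_mul_of_isDomain hh hr] at hform
  have := ordAt_le_totalDegree a hr
  have := ordAt_le_totalDegree a hh
  omega

/-- A factor of a form with center `a` which does not vanish in `a` is constant. -/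
theorem totalDegree_eq_zero_of_dvd {a : Fin (m + 1) → k} {g h : MvPolynomial (Fin (m + 1)) k}
    (hg : g ≠ 0) (hd : h ∣ g) (hform : ordAt a g = g.totalDegree)
    (ha : MvPolynomial.eval a h ≠ 0) : h.totalDegree = 0 := by
  obtain ⟨r, rfl⟩ := hd
  have hh : h ≠ 0 := left_ne_zero_of_mul hg
  have hr : r ≠ 0 := right_ne_zero_of_mul hg
  rw [ordAt_mul a hh hr, MvPolynomial.totalDegree_mul_of_isDomain hh hr, ordAt_eq_zero ha] at hform
  have := ordAt_le_totalDegree a hr
  omega

end Tr

section Res

variable {k L : Type*} [Field k] [Field L] [Algebra k L] {m : ℕ}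

/-- The translated family. -/
def sh (x : Fin (m + 1) → L) (a : Fin (m + 1) → k) (i : Fin (m + 1)) : L :=
  x i - algebraMap k L (a i)

theorem aeval_sh (x : Fin (m + 1) → L) (a : Fin (m + 1) → k) (g : MvPolynomial (Fin (m + 1)) k) :
    MvPolynomial.aeval (sh x a) (tr a g) = MvPolynomial.aeval x g := by
  have : (MvPolynomial.aeval (sh x a)).comp (tr a) =
      (MvPolynomial.aeval x : MvPolynomial (Fin (m + 1)) k →ₐ[k] L) := by
    apply MvPolynomial.algHom_ext
    intro i
    rw [AlgHom.comp_apply, tr_X, map_add, MvPolynomial.aeval_X, MvPolynomial.aeval_X,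
      MvPolynomial.algHom_C, sh, sub_add_cancel]
  rw [← this, AlgHom.comp_apply]

theorem ker_sh {x : Fin (m + 1) → L} {h : MvPolynomial (Fin (m + 1)) k}
    (hk : RingHom.ker (MvPolynomial.aeval x : MvPolynomial (Fin (m + 1)) k →ₐ[k] L) =
      Ideal.span {h}) (a : Fin (m + 1) → k) :
    RingHom.ker (MvPolynomial.aeval (sh x a) : MvPolynomial (Fin (m + 1)) k →ₐ[k] L) =
      Ideal.span {tr a h} := by
  have key : ∀ g : MvPolynomial (Fin (m + 1)) k, MvPolynomial.aeval x g = (0 : L) ↔ h ∣ g := by
    intro g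
    have : g ∈ RingHom.ker (MvPolynomial.aeval x : MvPolynomial (Fin (m + 1)) k →ₐ[k] L) ↔
        g ∈ Ideal.span {h} := by rw [hk]
    rwa [RingHom.mem_ker, Ideal.mem_span_singleton] at this
  ext g
  rw [RingHom.mem_ker, Ideal.mem_span_singleton, ← tr_tr_neg a g]
  change MvPolynomial.aeval (sh x a) (tr a (tr (-a) g)) = (0 : L) ↔ _
  rw [aeval_sh, key]
  constructor
  · exact fun hd => map_dvd (tr a) hd
  · intro hd
    have := map_dvd (tr (-a)) hd
    rwa [tr_neg_tr, tr_neg_tr] at this

theorem ker_of_sh {x : Fin (m + 1) → L} {a : Fin (m + 1) → k} {h : MvPolynomial (Fin (m + 1)) k}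
    (hk : RingHom.ker (MvPolynomial.aeval (sh x a) : MvPolynomial (Fin (m + 1)) k →ₐ[k] L) =
      Ideal.span {h}) :
    RingHom.ker (MvPolynomial.aeval x : MvPolynomial (Fin (m + 1)) k →ₐ[k] L) =
      Ideal.span {tr (-a) h} := by
  have h1 := ker_sh hk (-a)
  have h2 : sh (sh x a) (-a) = x := by
    funext i
    rw [sh, sh, Pi.neg_apply, map_neg]
    ring
  rwa [h2] at h1

theorem adjoin_sh (x : Fin (m + 1) → L) (a : Fin (m + 1) → k) :
    IntermediateField.adjoin k (Set.range (sh x a)) = IntermediateField.adjoin k (Set.range x) := by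
  apply le_antisymm
  · rw [IntermediateField.adjoin_le_iff]
    rintro _ ⟨i, rfl⟩
    exact sub_mem (IntermediateField.subset_adjoin k _ ⟨i, rfl⟩)
      (IntermediateField.algebraMap_mem _ _)
  · rw [IntermediateField.adjoin_le_iff]
    rintro _ ⟨i, rfl⟩
    have h1 : x i = sh x a i + algebraMap k L (a i) := by rw [sh, sub_add_cancel]
    change x i ∈ IntermediateField.adjoin k (Set.range (sh x a))
    rw [h1]
    exact add_mem (IntermediateField.subset_adjoin k _ ⟨i, rfl⟩)
      (IntermediateField.algebraMap_mem _ _)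

/-- The ratios. -/
def rat (x : Fin (m + 1) → L) (i : Fin m) : L := x i.succ / x 0

/-- **The degree over the lines through `a`.** -/
theorem finrank_at (x : Fin (m + 1) → L) (a : Fin (m + 1) → k) {h : MvPolynomial (Fin (m + 1)) k}
    (h0 : h ≠ 0)
    (hk : RingHom.ker (MvPolynomial.aeval x : MvPolynomial (Fin (m + 1)) k →ₐ[k] L) =
      Ideal.span {h}) (hx0 : sh x a 0 ≠ 0) (hi : AlgebraicIndependent k (rat (sh x a))) :
    Module.finrank (IntermediateField.adjoin k (Set.range (rat (sh x a)))) L =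
      (h.totalDegree - ordAt a h) *
        Module.finrank (IntermediateField.adjoin k (Set.range x)) L := by
  have h1 := finrank_one (sh x a) (tr_ne_zero a h0) (ker_sh hk a) hx0 hi
  rw [totalDegree_tr, adjoin_sh] at h1
  exact h1

/-- If no form vanishes in `y`, the ratios are independent. -/
theorem indep_of_forms (y : Fin (m + 1) → L)
    (key : ∀ g : MvPolynomial (Fin (m + 1)) k, g ≠ 0 → ord0 g = g.totalDegree →
      MvPolynomial.aeval y g ≠ (0 : L)) : y 0 ≠ 0 ∧ AlgebraicIndependent k (rat y) := by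
  have hx0 : y 0 ≠ 0 := by
    have := key (MvPolynomial.X 0) (MvPolynomial.X_ne_zero 0) (by
      rw [ord0, wo_X, MvPolynomial.totalDegree_X])
    rwa [MvPolynomial.aeval_X] at this
  refine ⟨hx0, ?_⟩
  rw [algebraicIndependent_iff]
  intro G hG
  by_contra hG0
  obtain ⟨N, g, hg⟩ := exists_lift (C G : (MvPolynomial (Fin m) k)[X])
  have hne : X ^ N * (C G : (MvPolynomial (Fin m) k)[X]) ≠ 0 :=
    mul_ne_zero (pow_ne_zero N X_ne_zero) (C_ne_zero.2 hG0)
  have hg0 : g ≠ 0 := by
    rintro rfl
    rw [map_zero] at hg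
    exact hne hg.symm
  refine key g hg0 ?_ ?_
  · rw [← trailing_psi hg0, ← natDegree_psi, hg, mul_comm, ← Polynomial.monomial_zero_left,
      Polynomial.monomial_mul_X_pow, zero_add, Polynomial.natTrailingDegree_monomial hG0,
      Polynomial.natDegree_monomial_eq N hG0]
  · have h1 : ∀ g : MvPolynomial (Fin (m + 1)) k, MvPolynomial.aeval y g =
        Polynomial.eval₂ (MvPolynomial.aeval (rat y) :
          MvPolynomial (Fin m) k →ₐ[k] L).toRingHom (y 0) (psi k m g) := by
      intro g
      induction g using MvPolynomial.induction_on with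
      | C c =>
        rw [psi_C, Polynomial.eval₂_C, MvPolynomial.algHom_C]
        exact (MvPolynomial.algHom_C (MvPolynomial.aeval (rat y)) c).symm
      | add p q hp hq => rw [map_add, map_add, Polynomial.eval₂_add, hp, hq]
      | mul_X p i hp =>
        rw [map_mul, map_mul, Polynomial.eval₂_mul, hp, MvPolynomial.aeval_X]
        congr 1
        refine Fin.cases ?_ (fun j => ?_) i
        · rw [psi_zero, Polynomial.eval₂_X]
        · rw [psi_succ, Polynomial.eval₂_mul, Polynomial.eval₂_X, Polynomial.eval₂_C]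
          change _ = _ * MvPolynomial.aeval (rat y) (MvPolynomial.X j)
          rw [MvPolynomial.aeval_X, rat, mul_div_cancel₀ _ hx0]
    rw [h1, hg, Polynomial.eval₂_mul, Polynomial.eval₂_C]
    change _ * MvPolynomial.aeval (rat y) G = 0
    rw [hG, mul_zero]

/-- If `h` is not a form with center `a`, the lines through `a` are in general position. -/
theorem ne_zero_and_indep (x : Fin (m + 1) → L) (a : Fin (m + 1) → k)
    {h : MvPolynomial (Fin (m + 1)) k} (hd : ordAt a h ≠ h.totalDegree)
    (hk : RingHom.ker (MvPolynomial.aeval x : MvPolynomial (Fin (m + 1)) k →ₐ[k] L) =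
      Ideal.span {h}) :
    sh x a 0 ≠ 0 ∧ AlgebraicIndependent k (rat (sh x a)) := by
  refine indep_of_forms (sh x a) fun g hg hform h1 => ?_
  have h2 : g ∈ RingHom.ker (MvPolynomial.aeval (sh x a) :
      MvPolynomial (Fin (m + 1)) k →ₐ[k] L) := h1
  rw [ker_sh hk, Ideal.mem_span_singleton] at h2
  have h3 := ordAt_eq_totalDegree_of_dvd (a := a) (g := tr (-a) g) (h := h)
    (tr_ne_zero _ hg) ?_ ?_
  · exact hd h3
  · have := map_dvd (tr (-a)) h2
    rwa [tr_neg_tr] at this
  · rw [ordAt, tr_tr_neg, totalDegree_tr, hform]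

/-- The case of independent elements. -/
theorem ne_zero_and_indep' {x : Fin (m + 1) → L} (hx : AlgebraicIndependent k x)
    (a : Fin (m + 1) → k) : sh x a 0 ≠ 0 ∧ AlgebraicIndependent k (rat (sh x a)) := by
  refine indep_of_forms (sh x a) fun g hg _ h1 => ?_
  rw [← tr_tr_neg a g, aeval_sh] at h1
  exact tr_ne_zero _ hg (hx (by rw [h1, map_zero]))

end Res

end Pool.Agent.TG1h47
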